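import Pool.Agent.helper12.DD.Spec2

/-!
# dw:CLA: Clifford theory for the index `q`, invariant characters
-/

set_option autoImplicit false

open Pool.Agent.helper49.Blk

namespace Pool.Agent.DD

section

variable {B : Type} [Group B]

/-- the twist of a representation by a linear character -/
noncomputable def CLA_tw {V : Type} [AddCommGroup V] [Module ℂ V] (mu : B →* ℂˣ)
    (ρ : Representation ℂ B V) : Representation ℂ B V where
  toFun b := ((mu b : ℂˣ) : ℂ) • ρ b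
  map_one' := by simp
  map_mul' a b := by
    rw [map_mul, map_mul, Units.val_mul, smul_mul_smul_comm]

theorem CLA_mul_mem [Finite B] (mu : B →* ℂˣ) (φ : B → ℂ) (hφ : φ ∈ Irr B) :
    (fun b => ((mu b : ℂˣ) : ℂ) * φ b) ∈ Irr B := by
  classical
  have := Fintype.ofFinite B
  obtain ⟨V, _, _, _, ρ, hρ, rfl⟩ := hφ
  have hch : (CLA_tw mu ρ).character = fun b => ((mu b : ℂˣ) : ℂ) * ρ.character b := by
    funext b
    show LinearMap.trace ℂ V (((mu b : ℂˣ) : ℂ) • ρ b) = _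
    rw [map_smul, smul_eq_mul]
    rfl
  refine ⟨V, _, _, inferInstance, CLA_tw mu ρ, ?_, hch⟩
  refine NRM B V _ ?_
  rw [hch, ← (orth ρ ρ hρ hρ).2 rfl]
  refine Finset.sum_congr rfl fun g _ => ?_
  have h1 : ((mu g : ℂˣ) : ℂ) * ((mu g⁻¹ : ℂˣ) : ℂ) = 1 := by
    rw [← Units.val_mul, ← map_mul]
    simp
  calc ((mu g : ℂˣ) : ℂ) * ρ.character g * (((mu g⁻¹ : ℂˣ) : ℂ) * ρ.character g⁻¹)
      = (((mu g : ℂˣ) : ℂ) * ((mu g⁻¹ : ℂˣ) : ℂ)) * (ρ.character g * ρ.character g⁻¹) := by ring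
    _ = ρ.character g * ρ.character g⁻¹ := by rw [h1, one_mul]

theorem CLA_orth [Fintype B] (φ φ' : B → ℂ) (hφ : φ ∈ Irr B) (hφ' : φ' ∈ Irr B) :
    (φ ≠ φ' → ∑ b, φ b * φ' b⁻¹ = 0) ∧ (φ = φ' → ∑ b, φ b * φ' b⁻¹ = (Nat.card B : ℂ)) := by
  obtain ⟨V, _, _, _, ρ, hρ, rfl⟩ := hφ
  obtain ⟨W, _, _, _, σ, hσ, rfl⟩ := hφ'
  exact orth ρ σ hρ hσ

end

theorem CLA_sum {A B : Type} [Group A] [Group B] [Fintype A] [Fintype B] (j : A →* B)
    (hj : Function.Injective j) (F : B → ℂ) [DecidablePred (fun b => b ∈ j.range)] :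
    ∑ b, (if b ∈ j.range then F b else 0) = ∑ x : A, F (j x) := by
  classical
  rw [← Finset.sum_filter]
  have h1 : Finset.univ.filter (fun b => b ∈ j.range) = Finset.univ.image (fun x : A => j x) := by
    ext b
    simp only [Finset.mem_filter, Finset.mem_univ, true_and, Finset.mem_image,
      MonoidHom.mem_range]
  rw [h1, Finset.sum_image (fun x _ y _ h => hj h)]

theorem CLA_geom {q : ℕ} (z : ℂ) (hz : z ^ q = 1) (h1 : z ≠ 1) :
    ∑ k ∈ Finset.range q, z ^ k = 0 := by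
  have h2 := geom_sum_mul z q
  rw [hz, sub_self] at h2
  rcases mul_eq_zero.1 h2 with h | h
  · exact h
  · exact absurd (sub_eq_zero.1 h) h1

/-- multiples of a stabilising exponent -/
theorem CLA_stab {B : Type} [Group B] (lam : B →* ℂˣ) (φ : B → ℂ) (k : ℕ)
    (h : ∀ b, ((lam b : ℂˣ) : ℂ) ^ k * φ b = φ b) (n : ℕ) :
    ∀ b, ((lam b : ℂˣ) : ℂ) ^ (k * n) * φ b = φ b := by
  intro b
  induction n with
  | zero => simp
  | succ n ih =>
    rw [Nat.mul_succ, pow_add, mul_assoc, h b, ih]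

theorem CLA (hLAM : LAM_stmt) (hCLE : CLE_stmt) (hCLS : CLS_stmt) : CLA_stmt := by
  classical
  intro A B _ _ _ _ j hj hn q hq hcard ψ hψ hivt
  have := Fintype.ofFinite A
  have := Fintype.ofFinite B
  have hcA : Nat.card j.range = Nat.card A :=
    (Nat.card_congr (MonoidHom.ofInjective hj).toEquiv).symm
  obtain ⟨lam, hlam, hlamq⟩ := hLAM B j.range hn q hq (by rw [hcA]; exact hcard)
  obtain ⟨⟨m, hm, hm'⟩, hψc⟩ := (IRF A).2 ψ hψ
  have hAne : (Nat.card A : ℂ) ≠ 0 := by exact_mod_cast Nat.card_pos.ne'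
  have hBne : (Nat.card B : ℂ) ≠ 0 := by exact_mod_cast Nat.card_pos.ne'
  have hqne : (q : ℂ) ≠ 0 := by exact_mod_cast hq.pos.ne'
  have hcardC : (Nat.card B : ℂ) = q * Nat.card A := by
    rw [hcard]
    push_cast
    rfl
  have hψn : ∑ x, ψ x * ψ x⁻¹ = (Nat.card A : ℂ) := (CLA_orth ψ ψ hψ hψ).2 rfl
  have hlz : ∀ b, ((lam b : ℂˣ) : ℂ) ^ q = 1 := by
    intro b
    rw [← Units.val_pow_eq_pow_val, hlamq b, Units.val_one]
  have hgeo : ∀ b, ∑ k ∈ Finset.range q, ((lam b : ℂˣ) : ℂ) ^ k =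
      if b ∈ j.range then (q : ℂ) else 0 := by
    intro b
    split_ifs with hb
    · rw [(hlam b).2 hb]
      simp
    · refine CLA_geom _ (hlz b) ?_
      intro h
      exact hb ((hlam b).1 (Units.ext h))
  have hpow : ∀ φ ∈ Irr B, ∀ k : ℕ, (fun b => ((lam b : ℂˣ) : ℂ) ^ k * φ b) ∈ Irr B := by
    intro φ hφ k
    have h1 := CLA_mul_mem (lam ^ k) φ hφ
    have e : (fun b => ((((lam ^ k) b : ℂˣ)) : ℂ) * φ b) =
        fun b => ((lam b : ℂˣ) : ℂ) ^ k * φ b := by
      funext b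
      rw [MonoidHom.pow_apply, Units.val_pow_eq_pow_val]
    rw [← e]
    exact h1
  -- the double sum
  have hdbl : ∀ φ φ' : B → ℂ, ∑ k ∈ Finset.range q, ∑ b, (((lam b : ℂˣ) : ℂ) ^ k * φ b) * φ' b⁻¹ =
      q * ∑ x : A, φ (j x) * φ' (j x)⁻¹ := by
    intro φ φ'
    rw [Finset.sum_comm]
    have e1 : ∀ b ∈ (Finset.univ : Finset B),
        ∑ k ∈ Finset.range q, (((lam b : ℂˣ) : ℂ) ^ k * φ b) * φ' b⁻¹ =
        (q : ℂ) * (if b ∈ j.range then φ b * φ' b⁻¹ else 0) := by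
      intro b _
      have e2 : ∑ k ∈ Finset.range q, (((lam b : ℂˣ) : ℂ) ^ k * φ b) * φ' b⁻¹ =
          (∑ k ∈ Finset.range q, ((lam b : ℂˣ) : ℂ) ^ k) * (φ b * φ' b⁻¹) := by
        rw [Finset.sum_mul]
        exact Finset.sum_congr rfl fun k _ => by ring
      rw [e2, hgeo b]
      split_ifs
      · rfl
      · simp
    rw [Finset.sum_congr rfl e1, ← Finset.mul_sum, CLA_sum j hj (fun b => φ b * φ' b⁻¹)]
  -- proportionality
  have hprop : ∀ φ ∈ Irr B, Ovr j φ ψ → ∀ x, φ (j x) * ψ 1 = φ 1 * ψ x := by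
    intro φ hφ ho x
    have hφc := ((IRF B).2 φ hφ).2
    have h1 := hCLS A B j hj hn φ hφ ψ hψ ho {y | ∃ b, j y = b * j x * b⁻¹} (by
      rintro b y z hz ⟨c, hc⟩
      exact ⟨b * c, by rw [hz, hc]; group⟩)
    have h2 : ∑ᶠ y ∈ {y | ∃ b, j y = b * j x * b⁻¹}, φ (j y) =
        ({y : A | ∃ b, j y = b * j x * b⁻¹}.ncard : ℂ) * φ (j x) := by
      have e : ∀ y ∈ {y : A | ∃ b, j y = b * j x * b⁻¹}, φ (j y) = φ (j x) := by
        rintro y ⟨b, hb⟩
        rw [hb]
        exact hφc (j x) b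
      rw [finsum_mem_congr rfl e, finsum_mem_eq_finite_toFinset_sum _ (Set.toFinite _),
        Finset.sum_const, nsmul_eq_mul, Set.ncard_eq_toFinset_card _ (Set.toFinite _)]
    have h3 : ∑ᶠ y ∈ {y | ∃ b, j y = b * j x * b⁻¹}, ψ y =
        ({y : A | ∃ b, j y = b * j x * b⁻¹}.ncard : ℂ) * ψ x := by
      have e : ∀ y ∈ {y : A | ∃ b, j y = b * j x * b⁻¹}, ψ y = ψ x := by
        rintro y ⟨b, hb⟩
        exact hivt b x y hb
      rw [finsum_mem_congr rfl e, finsum_mem_eq_finite_toFinset_sum _ (Set.toFinite _),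
        Finset.sum_const, nsmul_eq_mul, Set.ncard_eq_toFinset_card _ (Set.toFinite _)]
    rw [h2, h3] at h1
    have h4 : ({y : A | ∃ b, j y = b * j x * b⁻¹}.ncard : ℂ) ≠ 0 := by
      have h5 : {y : A | ∃ b, j y = b * j x * b⁻¹}.ncard ≠ 0 := by
        have h6 : x ∈ {y : A | ∃ b, j y = b * j x * b⁻¹} := ⟨1, by simp⟩
        exact (Set.ncard_pos (Set.toFinite _)).2 ⟨x, h6⟩ |>.ne'
      exact_mod_cast h5
    apply mul_left_cancel₀ h4
    calc _ = ({y : A | ∃ b, j y = b * j x * b⁻¹}.ncard : ℂ) * φ (j x) * ψ 1 := by ring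
      _ = φ 1 * (({y : A | ∃ b, j y = b * j x * b⁻¹}.ncard : ℂ) * ψ x) := h1
      _ = _ := by ring
  -- the restriction is `ψ` and no twist by `0 < k < q` is trivial
  have hmain : ∀ φ ∈ Irr B, Ovr j φ ψ → (∀ x, φ (j x) = ψ x) ∧
      ∀ k, 0 < k → k < q → ¬ ∀ b, ((lam b : ℂˣ) : ℂ) ^ k * φ b = φ b := by
    intro φ hφ ho
    obtain ⟨⟨n, hn0, hn'⟩, hφc⟩ := (IRF B).2 φ hφ
    have hp := hprop φ hφ ho
    -- norm of the restriction
    have hnorm : (m : ℂ) ^ 2 * ∑ x : A, φ (j x) * φ (j x)⁻¹ = (n : ℂ) ^ 2 * Nat.card A := by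
      rw [← hψn, Finset.mul_sum, Finset.mul_sum]
      refine Finset.sum_congr rfl fun x _ => ?_
      have h1 := hp x
      have h2 := hp x⁻¹
      rw [map_inv] at h2
      rw [hm', hn'] at h1 h2
      calc (m : ℂ) ^ 2 * (φ (j x) * φ (j x)⁻¹) = (φ (j x) * m) * (φ (j x)⁻¹ * m) := by ring
        _ = (n * ψ x) * (n * ψ x⁻¹) := by rw [h1, h2]
        _ = _ := by ring
    have hin : ∀ k, ∑ b, (((lam b : ℂˣ) : ℂ) ^ k * φ b) * φ b⁻¹ =
        if (∀ b, ((lam b : ℂˣ) : ℂ) ^ k * φ b = φ b) then (Nat.card B : ℂ) else 0 := by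
      intro k
      have h1 := CLA_orth (fun b => ((lam b : ℂˣ) : ℂ) ^ k * φ b) φ (hpow φ hφ k) hφ
      split_ifs with h
      · exact h1.2 (funext h)
      · exact h1.1 (fun h' => h (fun b => congrFun h' b))
    have hd := hdbl φ φ
    rw [Finset.sum_congr rfl (fun k _ => hin k), ← Finset.sum_filter, Finset.sum_const,
      nsmul_eq_mul] at hd
    set N := ((Finset.range q).filter
      (fun k => ∀ b, ((lam b : ℂˣ) : ℂ) ^ k * φ b = φ b)).card with hN
    have hsq : (m : ℂ) ^ 2 * N = (n : ℂ) ^ 2 := by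
      have h1 : (m : ℂ) ^ 2 * (N * (q * Nat.card A)) = q * ((n : ℂ) ^ 2 * Nat.card A) := by
        rw [← hnorm, ← hcardC, hd]
        ring
      have h2 : ((m : ℂ) ^ 2 * N - (n : ℂ) ^ 2) * (q * Nat.card A) = 0 := by
        linear_combination h1
      rcases mul_eq_zero.1 h2 with h3 | h3
      · exact sub_eq_zero.1 h3
      · exact absurd h3 (mul_ne_zero hqne hAne)
    have hsqN : m ^ 2 * N = n ^ 2 := by exact_mod_cast hsq
    have hnostab : ∀ k, 0 < k → k < q → ¬ ∀ b, ((lam b : ℂˣ) : ℂ) ^ k * φ b = φ b := by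
      intro k hk hkq hst
      -- then all exponents stabilise
      have hall : ∀ l, ∀ b, ((lam b : ℂˣ) : ℂ) ^ l * φ b = φ b := by
        intro l b
        have hcop : Nat.Coprime k q := by
          rw [Nat.coprime_comm]
          exact (Nat.Prime.coprime_iff_not_dvd hq).2 (fun h => absurd (Nat.le_of_dvd hk h)
            (not_le.2 hkq))
        obtain ⟨s, hs⟩ : ∃ s, k * s ≡ l [MOD q] := by
          obtain ⟨s, hs⟩ := Nat.exists_mul_mod_eq_one_of_coprime hcop hq.one_lt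
          refine ⟨s * l, ?_⟩
          have h1 : k * s ≡ 1 [MOD q] := by
            have h0 : 1 % q = 1 := Nat.mod_eq_of_lt hq.one_lt
            unfold Nat.ModEq
            rw [h0]
            first
              | exact hs
              | exact hs.2
          have h2 := h1.mul_right l
          rw [one_mul, mul_assoc] at h2
          exact h2
        have h3 := CLA_stab lam φ k hst s b
        have h4 : ((lam b : ℂˣ) : ℂ) ^ (k * s) = ((lam b : ℂˣ) : ℂ) ^ l := by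
          rw [← Nat.div_add_mod (k * s) q, ← Nat.div_add_mod l q, pow_add, pow_add, pow_mul, pow_mul,
            hlz b, one_pow, one_pow, hs]
        rw [← h4]
        exact h3
      have hNq : N = q := by
        rw [hN, Finset.filter_true_of_mem (fun k _ => hall k), Finset.card_range]
      rw [hNq] at hsqN
      -- contradiction with irrationality of `√q`
      have hirr := hq.irrational_sqrt
      apply hirr
      refine ⟨(n : ℚ) / m, ?_⟩
      push_cast
      have hm0 : (m : ℝ) ≠ 0 := by exact_mod_cast hm.ne'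
      have h5 : ((n : ℝ) / m) ^ 2 = q := by
        rw [div_pow, div_eq_iff (pow_ne_zero 2 hm0)]
        have h6 : (m : ℝ) ^ 2 * q = (n : ℝ) ^ 2 := by exact_mod_cast hsqN
        rw [← h6]
        ring
      rw [← h5, Real.sqrt_sq (by positivity)]
    refine ⟨?_, hnostab⟩
    have hN1 : N = 1 := by
      rw [hN, Finset.card_eq_one]
      refine ⟨0, ?_⟩
      ext k
      simp only [Finset.mem_filter, Finset.mem_range, Finset.mem_singleton]
      constructor
      · rintro ⟨hk, hst⟩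
        by_contra hne
        exact hnostab k (Nat.pos_of_ne_zero hne) hk hst
      · rintro rfl
        exact ⟨hq.pos, fun b => by simp⟩
    rw [hN1, mul_one] at hsqN
    have hmn : m = n := by
      exact Nat.pow_left_injective (n := 2) (by norm_num) hsqN
    intro x
    have h1 := hp x
    rw [hm', hn', ← hmn, mul_comm] at h1
    have hm0 : (m : ℂ) ≠ 0 := by exact_mod_cast hm.ne'
    exact mul_left_cancel₀ hm0 h1
  -- all characters over `ψ` are twists of one of them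
  have hres : ∀ φ ∈ Irr B, (∀ x, φ (j x) = ψ x) → Ovr j φ ψ := by
    intro φ _ h
    unfold Ovr
    rw [finsum_eq_sum_of_fintype]
    simp only [h]
    rw [hψn]
    exact hAne
  have htw : ∀ φ ∈ Irr B, Ovr j φ ψ → ∀ φ' ∈ Irr B, Ovr j φ' ψ →
      ∃ k < q, ∀ b, φ' b = ((lam b : ℂˣ) : ℂ) ^ k * φ b := by
    intro φ hφ ho φ' hφ' ho'
    by_contra hcon
    push Not at hcon
    have h1 := hdbl φ φ'
    have h2 : ∑ x : A, φ (j x) * φ' (j x)⁻¹ = (Nat.card A : ℂ) := by
      rw [← hψn]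
      refine Finset.sum_congr rfl fun x _ => ?_
      rw [(hmain φ hφ ho).1 x, ← map_inv, (hmain φ' hφ' ho').1 x⁻¹]
    rw [h2] at h1
    have h3 : ∀ k ∈ Finset.range q, ∑ b, (((lam b : ℂˣ) : ℂ) ^ k * φ b) * φ' b⁻¹ = 0 := by
      intro k hk
      refine (CLA_orth (fun b => ((lam b : ℂˣ) : ℂ) ^ k * φ b) φ' (hpow φ hφ k) hφ').1 ?_
      intro he
      obtain ⟨b, hb⟩ := hcon k (Finset.mem_range.1 hk)
      exact hb (congrFun he b).symm
    rw [Finset.sum_eq_zero h3] at h1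
    exact mul_ne_zero hqne hAne h1.symm
  obtain ⟨φ0, hφ0, ho0⟩ := hCLE A B j hj ψ hψ
  refine ⟨fun φ hφ ho => (hmain φ hφ ho).1, ?_, ?_⟩
  · have hset : {φ | φ ∈ Irr B ∧ Ovr j φ ψ} =
        ((fun (k : ℕ) (b : B) => ((lam b : ℂˣ) : ℂ) ^ k * φ0 b) '' (Finset.range q : Set ℕ)) := by
      ext φ
      constructor
      · rintro ⟨hφ, ho⟩
        obtain ⟨k, hk, hk'⟩ := htw φ0 hφ0 ho0 φ hφ ho
        exact ⟨k, Finset.mem_coe.2 (Finset.mem_range.2 hk), (funext hk').symm⟩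
      · rintro ⟨k, _, rfl⟩
        refine ⟨hpow φ0 hφ0 k, hres _ (hpow φ0 hφ0 k) ?_⟩
        intro x
        have h1 : lam (j x) = 1 := (hlam (j x)).2 ⟨x, rfl⟩
        show ((lam (j x) : ℂˣ) : ℂ) ^ k * φ0 (j x) = ψ x
        rw [h1, Units.val_one, one_pow, one_mul, (hmain φ0 hφ0 ho0).1 x]
    rw [hset, Set.InjOn.ncard_image, Set.ncard_coe_finset, Finset.card_range]
    -- injectivity
    have key : ∀ k l : ℕ, k < l → l < q →
        (fun b : B => ((lam b : ℂˣ) : ℂ) ^ k * φ0 b) ≠ fun b => ((lam b : ℂˣ) : ℂ) ^ l * φ0 b := by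
      intro k l hkl hl he
      apply (hmain φ0 hφ0 ho0).2 (l - k) (by omega) (by omega)
      intro b
      have h1 := congrFun he b
      have h2 : ((lam b : ℂˣ) : ℂ) ^ l = ((lam b : ℂˣ) : ℂ) ^ k * ((lam b : ℂˣ) : ℂ) ^ (l - k) := by
        rw [← pow_add]
        congr 1
        omega
      have h1' : ((lam b : ℂˣ) : ℂ) ^ k * φ0 b = ((lam b : ℂˣ) : ℂ) ^ l * φ0 b := h1
      rw [h2, mul_assoc] at h1'
      exact (mul_left_cancel₀ (pow_ne_zero k (Units.ne_zero _)) h1').symm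
    intro k hk l hl he
    have hk' := Finset.mem_range.1 (Finset.mem_coe.1 hk)
    have hl' := Finset.mem_range.1 (Finset.mem_coe.1 hl)
    rcases lt_trichotomy k l with h | h | h
    · exact absurd he (key k l h hl')
    · exact h
    · exact absurd he.symm (key l k h hk')
  · intro φ hφ φ' hφ' ho ho'
    obtain ⟨k, _, hk⟩ := htw φ hφ ho φ' hφ' ho'
    refine ⟨lam ^ k, ?_, ?_, ?_⟩
    · intro x
      rw [MonoidHom.pow_apply, (hlam (j x)).2 ⟨x, rfl⟩, one_pow]
    · intro b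
      rw [MonoidHom.pow_apply, ← pow_mul, mul_comm, pow_mul, hlamq b, one_pow]
    · intro b
      rw [hk b, MonoidHom.pow_apply, Units.val_pow_eq_pow_val, mul_comm]

end Pool.Agent.DD
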